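import Mathlib
import Pool.Agent.U999.OD.Asm

set_option autoImplicit false

/-!
# MP_4b405e_nt: arithmetic Kakeya sets whose first terms have a modulus of continuity

Dimension `n = 1` (the general case of Q1 is equivalent to it).  A bounded set `B ⊆ ℝ` contains the
progressions `a r, a r + r, …, a r + (k-1) r`, and on a set `R` of common differences of positive
measure the first term satisfies `|a x - a y| ≤ C h(n) |x - y|` as soon as `|a x - a y| ≥ 2^(-n)`,
where `h` is a given nondecreasing positive sequence (`h = 1`: Lipschitz functions, `h(n) = n + 1`: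
log-Lipschitz functions).  The least upper Minkowski dimension is determined by two series:

* if `∑ 1 / ((n+1) h(n)) = ∞` it is `1` for all `k ≥ 2`;
* if `∑ 1 / ((n+1) h(n)) < ∞` and `∑ 1 / h(n) = ∞` (Osgood's condition) it is `1 - 1/k`;
* if `∑ 1 / h(n) < ∞` it is `f^M_1(k)`: the restriction to such sets changes nothing.

Proof of the lower bounds.  Fix a monotone choice of points of `R` in the dyadic intervals of level
`M`.  If `B` has dimension less than one, the values of `a` at consecutive points can pass from one
place to another only by jumps, so that for every `m` the variation of `a` on coarser scales is at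
most the sum of the jumps of size at least `2^(-m)`.  A jump of size `J ≥ 2^(-m)` needs a gap of
length `J / (C h(m))` between the points, and the sum of the gaps is at most one; summation by parts
bounds `∑ 1 / h(m)` if the variation at level `n` is at least `c n` for all large `n`.  At the other
levels, almost all points see almost all scales with the same slope as the neighbouring scales; for
one of the `k` functions `a + j r` at most the proportion `1/k` of the scales is flat, and outside the
flat scales the rising sun lemma shows that the values branch.  In the first regime the same is done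
in windows `[n, Λ n]` of scales: a window without jumps has a constant slope, and either `a` or
`a + r` takes almost all values at the end of it.

Constructions.  Digit expansions with slowly changing slopes (second regime), digit expansions
attached to a discrete example (third regime); `R` consists of the numbers that stay away from the
`b`-adic points of the levels at which the slope changes.
-/

open Filter Topology MeasureTheory

namespace Pool.Agent.Results.MP_4b405e_nt.OsgoodTrichotomy

/-- The least number of sets of diameter at most `δ` covering `B` (for bounded `B`). -/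
noncomputable def coverNum (B : Set ℝ) (δ : ℝ) : ℕ :=
  sInf {N | ∃ U : Fin N → Set ℝ, (∀ i, ∀ x ∈ U i, ∀ y ∈ U i, dist x y ≤ δ) ∧ B ⊆ ⋃ i, U i}

/-- Upper Minkowski dimension (upper box-counting dimension). -/
noncomputable def upperMinkowski (B : Set ℝ) : EReal :=
  limsup (fun δ : ℝ => ((Real.log (coverNum B δ) / Real.log (1 / δ) : ℝ) : EReal)) (𝓝[>] 0)

/-- `B` contains a `k`-term progression with every common difference in `[0,1]`. -/
def HasProgressions (k : ℕ) (B : Set ℝ) : Prop :=
  ∀ r ∈ Set.Icc (0 : ℝ) 1, ∃ a : ℝ, ∀ j : ℕ, j < k → a + j * r ∈ B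

/-- `f^M_1(k)`: the infimum of the upper Minkowski dimensions of the bounded sets in `ℝ` that contain
a `k`-term progression with every common difference in `[0,1]`. -/
noncomputable def fM (k : ℕ) : EReal :=
  ⨅ (B : Set ℝ) (_ : Bornology.IsBounded B) (_ : HasProgressions k B), upperMinkowski B

/-- `a` has the modulus `h` on `R`: for some `C` and all `x, y ∈ R`, `n`, the inequality
`|a x - a y| ≥ 2^(-n)` implies `|a x - a y| ≤ C h(n) |x - y|`. -/
def HasModulus (h : ℕ → ℝ) (R : Set ℝ) (a : ℝ → ℝ) : Prop :=
  ∃ C : ℝ, ∀ n : ℕ, ∀ x ∈ R, ∀ y ∈ R, ((2 : ℝ) ^ n)⁻¹ ≤ |a x - a y| →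
    |a x - a y| ≤ C * h n * |x - y|

/-- `B` contains a `k`-term progression with every common difference `r ∈ [0,1]`, and its first term
can be chosen as a function of `r` that has the modulus `h` outside a set of measure less than `η`. -/
def HasRegularProgressions (h : ℕ → ℝ) (η : ℝ) (k : ℕ) (B : Set ℝ) : Prop :=
  ∃ (a : ℝ → ℝ) (R : Set ℝ), R ⊆ Set.Icc 0 1 ∧
    volume (Set.Icc (0 : ℝ) 1 \ R) < ENNReal.ofReal η ∧ HasModulus h R a ∧
    ∀ r ∈ Set.Icc (0 : ℝ) 1, ∀ j : ℕ, j < k → a r + j * r ∈ B

/-- The infimum of the upper Minkowski dimensions of the bounded sets with regular progressions. -/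
noncomputable def fReg (h : ℕ → ℝ) (η : ℝ) (k : ℕ) : EReal :=
  ⨅ (B : Set ℝ) (_ : Bornology.IsBounded B) (_ : HasRegularProgressions h η k B), upperMinkowski B

theorem result (h : ℕ → ℝ) (hmono : Monotone h) (hpos : ∀ n, 0 < h n) :
    -- the exact value in the three regimes
    (∀ η : ℝ, 0 < η → η ≤ 1 → ∀ k : ℕ, 1 ≤ k →
      (¬ Summable (fun n : ℕ => 1 / (((n : ℝ) + 1) * h n)) → 2 ≤ k →
        fReg h η k = ((1 : ℝ) : EReal)) ∧
      (Summable (fun n : ℕ => 1 / (((n : ℝ) + 1) * h n)) → ¬ Summable (fun n => 1 / h n) →
        fReg h η k = ((1 - 1 / (k : ℝ) : ℝ) : EReal)) ∧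
      (Summable (fun n => 1 / h n) → fReg h η k = fM k)) ∧
    -- the lower bounds, for progressions with common differences in a set of positive measure
    (∀ (R : Set ℝ) (a : ℝ → ℝ) (B : Set ℝ) (k : ℕ), R ⊆ Set.Icc 0 1 → volume R ≠ 0 →
      HasModulus h R a → Bornology.IsBounded B →
      (∀ r ∈ R, ∀ j : ℕ, j < k → a r + j * r ∈ B) →
      (¬ Summable (fun n : ℕ => 1 / (((n : ℝ) + 1) * h n)) → 2 ≤ k →
        ((1 : ℝ) : EReal) ≤ upperMinkowski B) ∧
      (¬ Summable (fun n => 1 / h n) → 1 ≤ k →
        ((1 - 1 / (k : ℝ) : ℝ) : EReal) ≤ upperMinkowski B)) :=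
  Pool.Agent.U999.OD.main h hmono hpos

end Pool.Agent.Results.MP_4b405e_nt.OsgoodTrichotomy
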