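import Pool.Agent.U685.KU.Defs
import Pool.Agent.U685.KU.Sharp

/-!
The arithmetic Kakeya conjecture for first terms given by trees of labels on polynomial graphs.

In base `b` let the first term be `a(r) = ∑ i, lab i ⌊b ^ (i + 1) r⌋ / b ^ (i + 1)`: the label of the
number `i` is an arbitrary function of the first `i + 1` digits of `r`.  For each node of the tree of
digits and each slope `-j`, `j < k`, `lineMax` is the largest number of the `b` points (next digit,
label of the child) on a line of this slope.  If the product of these numbers over all slopes is at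
most `b ^ (τ k)` on the average along each path, then a set containing `a(r) + j r` for all `j < k` and
all `r` in an arbitrary set `R` has at every scale at least `δ ^ (τ + ε) / C` times the covering number
of `R`.  This applies with `τ = D / k` if at each node the labels lie on the graphs of `D` polynomials
of bounded degree (over any field of characteristic zero or at least `b`), chosen for each node.  For
`D = 1` and `R = [0, 1)` the least dimension is `1 - 1 / k`, up to `ε`.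

Proof: for every `r` one of the `k` slopes is good along its path; the words of the digits of the
numbers `a(r) + j r` then determine `r` up to few possibilities; at most `(2 (L + k b) / b + 1) ^ n`
words of length `n` have a given value in base `b`.
-/

set_option autoImplicit false

namespace Pool.Agent.Results.MP_4b405e_nt.PolynomialLabels

open Finset MeasureTheory Polynomial
open Pool.Agent.U685.KU

/-- See the claim file. -/
theorem result :
    -- (1) products of line multiplicities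
    (∀ ε : ℝ, 0 < ε → ∀ k : ℕ, 1 ≤ k → ∃ b₀ : ℕ, ∀ b L : ℕ, b₀ ≤ b →
      (L : ℝ) ≤ (b : ℝ) ^ (1 + ε / 2) → ∀ A : ℝ, ∃ C : ℝ, 0 < C ∧
      ∀ lab : ℕ → ℕ → ℤ, (∀ i q, |lab i q| ≤ L) → ∀ τ : ℝ, 0 ≤ τ →
      ∀ R B : Set ℝ, R ⊆ Set.Ico 0 1 → LinesBounded k b lab A τ R → Contains k b lab R B →
        (∀ δ : ℝ, 0 < δ → δ < 1 → ∀ S : Finset (Set ℝ), Cov B δ S →
          ∃ S' : Finset (Set ℝ), Cov R δ S' ∧ (S'.card : ℝ) ≤ C * δ ^ (-(τ + ε)) * S.card) ∧
        (volume R ≠ 0 → ∃ c : ℝ, 0 < c ∧ ∀ δ : ℝ, 0 < δ → δ < 1 → ∀ S : Finset (Set ℝ),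
          Cov B δ S → c * δ ^ (-(1 - (τ + ε))) ≤ S.card)) ∧
    -- (2) labels on the graphs of `D` polynomials of degree at most `m`
    (∀ ε : ℝ, 0 < ε → ∀ k D m : ℕ, 1 ≤ k → 1 ≤ D → ∃ b₀ : ℕ, ∀ b L : ℕ, b₀ ≤ b →
      (L : ℝ) ≤ (b : ℝ) ^ (1 + ε / 4) → ∃ C : ℝ, 0 < C ∧
      ∀ (K : Type) [Field K], (∀ d : ℕ, 0 < d → d < b → (d : K) ≠ 0) →
      ∀ lab : ℕ → ℕ → ℤ, (∀ i q, |lab i q| ≤ L) → OnGraphs K D m b lab →
      ∀ R B : Set ℝ, R ⊆ Set.Ico 0 1 → Contains k b lab R B →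
        (∀ δ : ℝ, 0 < δ → δ < 1 → ∀ S : Finset (Set ℝ), Cov B δ S →
          ∃ S' : Finset (Set ℝ), Cov R δ S' ∧
            (S'.card : ℝ) ≤ C * δ ^ (-((D : ℝ) / k + ε)) * S.card) ∧
        (volume R ≠ 0 → ∃ c : ℝ, 0 < c ∧ ∀ δ : ℝ, 0 < δ → δ < 1 → ∀ S : Finset (Set ℝ),
          Cov B δ S → c * δ ^ (-(1 - ((D : ℝ) / k + ε))) ≤ S.card)) ∧
    -- (3) one linear polynomial for each node: dimension at most `1 - 1 / k`
    (∀ k b : ℕ, 1 ≤ k → 2 ≤ b →
      (∀ i q, |alternating k b i q| ≤ ((k * b : ℕ) : ℤ)) ∧ OnGraphs ℚ 1 1 b (alternating k b) ∧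
      ∃ B : Set ℝ, Contains k b (alternating k b) (Set.Ico 0 1) B ∧ ∃ C : ℝ, 0 < C ∧
        ∀ δ : ℝ, 0 < δ → δ < 1 → ∃ S : Finset (Set ℝ), Cov B δ S ∧
          (S.card : ℝ) ≤ C * δ ^ (-(1 - 1 / (k : ℝ)))) := by
  refine ⟨?_, ?_, ?_⟩
  · intro ε hε k hk
    obtain ⟨b₀, h⟩ := dim hε hk
    refine ⟨b₀, fun b L hb hL A => ?_⟩
    obtain ⟨hb2, h⟩ := h b hb
    have hb' : (2 : ℝ) ≤ b := by exact_mod_cast hb2
    have hk' : (1 : ℝ) ≤ k := by exact_mod_cast hk
    have hA : (1 : ℝ) ≤ max A 1 := le_max_right _ _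
    have hC : (0 : ℝ) < b * (k * max A 1 * (2 * (2 * (L + k) + 1) + 1)) := by positivity
    refine ⟨_, hC, fun lab hlab τ hτ R B hR hlin hB => ?_⟩
    have hR' : ∀ r ∈ R, 0 ≤ r ∧ r < 1 := fun r hr => ⟨(hR hr).1, (hR hr).2⟩
    have hlin' : LinesBounded k b lab (max A 1) τ R := fun r hr n =>
      (hlin r hr n).trans (mul_le_mul_of_nonneg_right (le_max_left _ _) (by positivity))
    have h1 := h L hL (max A 1) hA lab hlab τ hτ R B hR' hlin' hB
    exact ⟨h1, fun hpos => of_cover hC hR' hpos h1⟩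
  · intro ε hε k D m hk hD
    obtain ⟨b₀, h⟩ := graphs hε m hk hD
    refine ⟨b₀, fun b L hb hL => ?_⟩
    obtain ⟨hb2, h⟩ := h b hb
    have hb' : (2 : ℝ) ≤ b := by exact_mod_cast hb2
    have hk' : (1 : ℝ) ≤ k := by exact_mod_cast hk
    have hC : (0 : ℝ) < b * (k * 1 * (2 * (2 * (L + k) + 1) + 1)) := by positivity
    refine ⟨_, hC, fun K _ hK lab hlab hG R B hR hB => ?_⟩
    have hR' : ∀ r ∈ R, 0 ≤ r ∧ r < 1 := fun r hr => ⟨(hR hr).1, (hR hr).2⟩
    have h1 := h L hL K hK lab hlab hG R B hR' hB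
    exact ⟨h1, fun hpos => of_cover hC hR' hpos h1⟩
  · intro k b hk hb
    refine ⟨alternating_le hk (by omega), alternating_graphs k b, ?_⟩
    obtain ⟨C, hC, h⟩ := sharp hk hb
    exact ⟨{x | ∃ r ∈ Set.Ico (0 : ℝ) 1, ∃ j < k, x = first b (alternating k b) r + j * r},
      fun r hr j hj => ⟨r, hr, j, hj, rfl⟩, C, hC, h⟩

end Pool.Agent.Results.MP_4b405e_nt.PolynomialLabels
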