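import Pool.Agent.U597.AP.Final
import Pool.Agent.TH404.AK.Sdc3

/-!
# MP_4b405e_nt: progressions with missing terms and intermediate dimensions

The bound `n / 1.669587` of the starting files (all terms of the progressions in `B`, Minkowski
dimension) holds for all lower `θ`-intermediate dimensions, `θ > 0`, if only a positive proportion of
the terms of the progressions lies in `B`, and for arbitrary sets of common differences.
-/

set_option autoImplicit false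

open MeasureTheory Filter Topology
open scoped ENNReal NNReal

namespace Pool.Agent.Results.MP_4b405e_nt.SparseProgressions

/-- Every cover of `K` by sets with diameters in `[ρ, δ]` has `∑ diam ^ s ≥ ε`. -/
def CoverBound {n : ℕ} (ε ρ δ s : ℝ) (K : Set (EuclideanSpace ℝ (Fin n))) : Prop :=
  ∀ (ι : Type) (t : ι → Set (EuclideanSpace ℝ (Fin n))), K ⊆ ⋃ i, t i →
    (∀ i, ENNReal.ofReal ρ ≤ Metric.ediam (t i) ∧ Metric.ediam (t i) ≤ ENNReal.ofReal δ) →
    ENNReal.ofReal ε ≤ ∑' i, Metric.ediam (t i) ^ s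

/-- The lower `θ`-intermediate dimension: the supremum of the `s ≥ 0` such that for some `ε > 0` and
all small `δ > 0` every cover of `K` by sets with diameters in `[δ ^ (1 / θ), δ]` has
`∑ diam ^ s ≥ ε`. -/
noncomputable def lowerDim {n : ℕ} (θ : ℝ) (K : Set (EuclideanSpace ℝ (Fin n))) : ℝ≥0∞ :=
  sSup {x : ℝ≥0∞ | ∃ s : ℝ, 0 ≤ s ∧ x = ENNReal.ofReal s ∧
    ∃ ε : ℝ, 0 < ε ∧ ∀ᶠ δ in 𝓝[>] (0 : ℝ), CoverBound ε (δ ^ (1 / θ)) δ s K}

/-- For every `r ∈ R` some `k`-term progression with common difference `r` has at least `lam * k` of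
its terms in `B`. -/
def ManyTerms {n : ℕ} (lam : ℝ) (k : ℕ) (R B : Set (EuclideanSpace ℝ (Fin n))) : Prop :=
  ∀ r ∈ R, ∃ a : EuclideanSpace ℝ (Fin n),
    lam * k ≤ (Set.ncard {j : ℕ | j < k ∧ a + (j : ℝ) • r ∈ B} : ℝ)

/-- The sums-differences inequality with exponent `c` (the statement of the arithmetic Kakeya
conjecture in projection form with `c` for `1 + ε`). -/
def SumsDifferences (c : ℝ) : Prop :=
  ∃ S : Finset ℚ, (-1 : ℚ) ∉ S ∧
    ∀ A : Finset (ℤ × ℤ),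
      ((A.image (fun p : ℤ × ℤ => (p.1 : ℚ) + (-1) * (p.2 : ℚ))).card : ℝ) ≤
        (max ((A.image (fun p : ℤ × ℤ => (p.2 : ℚ))).card : ℝ)
            ((S.sup (fun r : ℚ =>
                (A.image (fun p : ℤ × ℤ => (p.1 : ℚ) + r * (p.2 : ℚ))).card) : ℕ) : ℝ))
          ^ c

/-- The conclusion with exponent `c`. -/
def Holds (c : ℝ) : Prop :=
  ∀ lam θ τ : ℝ, 0 < lam → 0 < θ → θ ≤ 1 → 0 < τ → ∃ k₀ : ℕ, ∀ k ≥ k₀, ∀ n : ℕ, 1 ≤ n →
    -- one scale `δ`
    (∃ C : ℝ, 0 < C ∧ ∀ R B : Set (EuclideanSpace ℝ (Fin n)), ManyTerms lam k R B →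
      ∀ s ε δ : ℝ, 0 ≤ s → 0 < ε → 0 < δ → δ < 1 → CoverBound ε (δ ^ (1 / θ)) δ s R →
        CoverBound (C * ε ^ (1 / c)) (δ ^ (1 / θ)) δ (s / (c * (1 + τ))) B) ∧
    ∀ R B : Set (EuclideanSpace ℝ (Fin n)), ManyTerms lam k R B →
      -- lower intermediate dimensions
      lowerDim θ R ≤ ENNReal.ofReal (c * (1 + τ)) * lowerDim θ B ∧
      -- sets of differences of positive outer measure
      (volume R ≠ 0 → (n : ℝ≥0∞) ≤ ENNReal.ofReal (c * (1 + τ)) * lowerDim θ B)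

theorem many {n : ℕ} {lam : ℝ} {k : ℕ} {R B : Set (EuclideanSpace ℝ (Fin n))}
    (h : ManyTerms lam k R B) : ∀ r ∈ R, ∃ a : EuclideanSpace ℝ (Fin n),
      lam * k ≤ ((Finset.card (@Finset.filter ℕ (fun j : ℕ => a + (j : ℝ) • r ∈ B)
        (Classical.decPred _) (Finset.range k)) : ℕ) : ℝ) := by
  classical
  intro r hr
  obtain ⟨a, ha⟩ := h r hr
  refine ⟨a, ha.trans ?_⟩
  have e : {j : ℕ | j < k ∧ a + (j : ℝ) • r ∈ B} =
      ((@Finset.filter ℕ (fun j : ℕ => a + (j : ℝ) • r ∈ B)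
        (Classical.decPred _) (Finset.range k) : Finset ℕ) : Set ℕ) := by
    ext j
    simp
  rw [e, Set.ncard_coe_finset]

theorem holds {c : ℝ} (hc : 0 < c) (h : SumsDifferences c) : Holds c := by
  intro lam θ τ hlam hθ0 hθ1 hτ
  obtain ⟨S, hS⟩ := h
  have hSD : Pool.Agent.W46.KK.SD c := ⟨S, hS⟩
  obtain ⟨k₀, hk₀⟩ := Pool.Agent.U597.AP.one_scale hSD hc hlam hθ0 hθ1 hτ
  refine ⟨k₀, fun k hk n hn => ?_⟩
  obtain ⟨C, hC, hone⟩ := hk₀ k hk n hn
  have hcτ : 0 < c * (1 + τ) := by positivity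
  have h1 : ∀ R B : Set (EuclideanSpace ℝ (Fin n)), ManyTerms lam k R B →
      ∀ s ε δ : ℝ, 0 ≤ s → 0 < ε → 0 < δ → δ < 1 → CoverBound ε (δ ^ (1 / θ)) δ s R →
        CoverBound (C * ε ^ (1 / c)) (δ ^ (1 / θ)) δ (s / (c * (1 + τ))) B :=
    fun R B hRB s ε δ hs hε hδ0 hδ1 hR => hone R B (many hRB) s ε δ hs hε hδ0 hδ1 hR
  have h2 : ∀ R B : Set (EuclideanSpace ℝ (Fin n)), ManyTerms lam k R B →
      lowerDim θ R ≤ ENNReal.ofReal (c * (1 + τ)) * lowerDim θ B := by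
    intro R B hRB
    apply sSup_le
    rintro x ⟨s, hs0, rfl, ε, hε, hev⟩
    have h3 : ENNReal.ofReal (s / (c * (1 + τ))) ≤ lowerDim θ B := by
      apply le_sSup
      refine ⟨s / (c * (1 + τ)), by positivity, rfl, C * ε ^ (1 / c), by positivity, ?_⟩
      filter_upwards [hev, Ioo_mem_nhdsGT (show (0 : ℝ) < 1 by norm_num)] with δ h4 h5
      exact h1 R B hRB s ε δ hs0 hε h5.1 h5.2 h4
    calc ENNReal.ofReal s = ENNReal.ofReal (c * (1 + τ)) * ENNReal.ofReal (s / (c * (1 + τ))) := by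
          rw [← ENNReal.ofReal_mul hcτ.le]
          congr 1
          field_simp
      _ ≤ _ := mul_le_mul_right h3 _
  refine ⟨⟨C, hC, h1⟩, fun R B hRB => ⟨h2 R B hRB, fun hvol => ?_⟩⟩
  refine le_trans ?_ (h2 R B hRB)
  obtain ⟨ε, hε, hb⟩ := Pool.Agent.U597.AP.vol_bd R hvol
  apply le_sSup
  refine ⟨n, Nat.cast_nonneg n, by simp, ε, hε, ?_⟩
  filter_upwards [Ioo_mem_nhdsGT (show (0 : ℝ) < 1 by norm_num)] with δ h5
  exact hb _ δ (Real.rpow_pos_of_pos h5.1 _)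

/-- The conclusion holds with the exponent `1.669587`, and with every exponent `c` for which the
sums-differences inequality is true. -/
theorem result : Holds 1.669587 ∧ ∀ c : ℝ, 0 < c → SumsDifferences c → Holds c := by
  refine ⟨?_, fun c hc h => holds hc h⟩
  have e : (1.669587 : ℝ) = 1669587 / 1000000 := by norm_num
  rw [e]
  obtain ⟨S, h⟩ := Pool.Agent.TH404.AK.sdc3
  exact holds (by norm_num) ⟨S, h⟩

end Pool.Agent.Results.MP_4b405e_nt.SparseProgressions
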