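import Mathlib
import Pool.Agent.U999.OD.V6

set_option autoImplicit false

/-!
# MP_4b405e_nt: arithmetic Kakeya sets and the modulus of variation of their first terms

Dimension `n = 1` (the general case of Q1 is equivalent to it).  A bounded set `B ⊆ ℝ` contains the
progressions `a r, a r + r, …, a r + (k-1) r`, `0 ≤ r ≤ 1`.  The function `a` is arbitrary, in
general discontinuous everywhere.  Let `V(n)` be its (Chanturiya) modulus of variation: the largest
sum of `2 ^ n` increments of `a` along a monotone sequence.  For every positive sequence `W` the
least upper Minkowski dimension of the sets with `V(n) = O(W(n))` is determined: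

* if `lim inf W(n) / log n = 0` it is `1` for all `k ≥ 2`;
* if `lim inf W(n) / log n > 0` and `lim inf W(n) / n = 0` it is `1 - 1/k`;
* if `lim inf W(n) / n > 0` it is `f^M_1(k)`: the restriction to such sets changes nothing.

So the arithmetic Kakeya problem is located exactly at the variation `C n = C log N` of sums of
`N = 2 ^ n` increments; with `o(log N)` the exact value is `1 - 1/k`, and it drops from `1` to
`1 - 1/k` at the variation `log log N`.

Proof of the lower bounds.  Choose points of `R` in the dyadic intervals of a fine level.  The
variations of `a` along the dyadic scales are increasing; the differences of those of two scales are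
the excesses of the variation over the increments on the intervals of the coarser scale.  If the
variation at level `n` is `o(log n)`, there is a window `[n, Λ n]` of scales with a small excess.
Then `a r + r / 2` is nearly monotone on most intervals of length `2 ^ (-n)`, so that `a r + r` is
increasing with a slope at least `1/2`, or `a r` is decreasing with a slope at most `-1/2`, up to a
small set (rising sun lemma), and takes almost all values of the finer scale.  If the variation is at
most `c n`, almost all points see almost all scales with the same slope as the neighbouring scales;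
for one of the `k` functions `a + j r` at most the proportion `1/k` of the scales is flat, and
outside the flat scales the values branch.

Constructions.  Binary expansions whose slope changes at the levels of a geometric progression with a
ratio near one (second regime; each change costs a bounded variation on all scales together), and
digit expansions attached to a discrete example (third regime; every level costs a bounded
variation).
-/

open Filter Topology MeasureTheory

namespace Pool.Agent.Results.MP_4b405e_nt.VariationTrichotomy

/-- The least number of sets of diameter at most `δ` covering `B` (for bounded `B`). -/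
noncomputable def coverNum (B : Set ℝ) (δ : ℝ) : ℕ :=
  sInf {N | ∃ U : Fin N → Set ℝ, (∀ i, ∀ x ∈ U i, ∀ y ∈ U i, dist x y ≤ δ) ∧ B ⊆ ⋃ i, U i}

/-- Upper Minkowski dimension (upper box-counting dimension). -/
noncomputable def upperMinkowski (B : Set ℝ) : EReal :=
  limsup (fun δ : ℝ => ((Real.log (coverNum B δ) / Real.log (1 / δ) : ℝ) : EReal)) (𝓝[>] 0)

/-- `B` contains a `k`-term progression with every common difference in `[0,1]`. -/
def HasProgressions (k : ℕ) (B : Set ℝ) : Prop :=
  ∀ r ∈ Set.Icc (0 : ℝ) 1, ∃ a : ℝ, ∀ j : ℕ, j < k → a + j * r ∈ B

/-- `f^M_1(k)`: the infimum of the upper Minkowski dimensions of the bounded sets in `ℝ` that contain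
a `k`-term progression with every common difference in `[0,1]`. -/
noncomputable def fM (k : ℕ) : EReal :=
  ⨅ (B : Set ℝ) (_ : Bornology.IsBounded B) (_ : HasProgressions k B), upperMinkowski B

/-- The modulus of variation of `a` on `R` is `O(W)`: for some `C` and all `n`, the sum of the
absolute values of at most `2 ^ n` increments of `a` along a monotone sequence of points of `R` is at
most `C W(n)`. -/
def HasVariation (W : ℕ → ℝ) (R : Set ℝ) (a : ℝ → ℝ) : Prop :=
  ∃ C : ℝ, ∀ (n N : ℕ) (x : ℕ → ℝ), N ≤ 2 ^ n → Monotone x → (∀ i, x i ∈ R) →
    ∑ i ∈ Finset.range N, |a (x (i + 1)) - a (x i)| ≤ C * W n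

/-- `B` contains a `k`-term progression with every common difference `r ∈ [0,1]`, and the modulus of
variation of its first term, as a function of `r`, is `O(W)`. -/
def HasVaryingProgressions (W : ℕ → ℝ) (k : ℕ) (B : Set ℝ) : Prop :=
  ∃ a : ℝ → ℝ, HasVariation W (Set.Icc 0 1) a ∧
    ∀ r ∈ Set.Icc (0 : ℝ) 1, ∀ j : ℕ, j < k → a r + j * r ∈ B

/-- The infimum of the upper Minkowski dimensions of the bounded sets with such progressions. -/
noncomputable def fVar (W : ℕ → ℝ) (k : ℕ) : EReal :=
  ⨅ (B : Set ℝ) (_ : Bornology.IsBounded B) (_ : HasVaryingProgressions W k B), upperMinkowski B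

/-- `lim inf W(n) / f(n) = 0`. -/
def LiminfZero (W f : ℕ → ℝ) : Prop :=
  ∀ ε : ℝ, 0 < ε → ∀ m : ℕ, ∃ n : ℕ, m ≤ n ∧ W n ≤ ε * f n

theorem result (W : ℕ → ℝ) (hpos : ∀ n, 0 < W n) :
    -- the exact value in the three regimes
    (∀ k : ℕ, 1 ≤ k →
      (LiminfZero W (fun n => Real.log n) → 2 ≤ k → fVar W k = ((1 : ℝ) : EReal)) ∧
      (¬ LiminfZero W (fun n => Real.log n) → LiminfZero W (fun n => (n : ℝ)) →
        fVar W k = ((1 - 1 / (k : ℝ) : ℝ) : EReal)) ∧
      (¬ LiminfZero W (fun n => (n : ℝ)) → fVar W k = fM k)) ∧
    -- the lower bounds, for progressions with common differences in a set of positive measure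
    (∀ (R : Set ℝ) (a : ℝ → ℝ) (B : Set ℝ) (k : ℕ), R ⊆ Set.Icc 0 1 → volume R ≠ 0 →
      HasVariation W R a → Bornology.IsBounded B →
      (∀ r ∈ R, ∀ j : ℕ, j < k → a r + j * r ∈ B) →
      (LiminfZero W (fun n => Real.log n) → 2 ≤ k → ((1 : ℝ) : EReal) ≤ upperMinkowski B) ∧
      (LiminfZero W (fun n => (n : ℝ)) → 1 ≤ k →
        ((1 - 1 / (k : ℝ) : ℝ) : EReal) ≤ upperMinkowski B)) :=
  Pool.Agent.U999.OD.main2 W hpos

end Pool.Agent.Results.MP_4b405e_nt.VariationTrichotomy
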